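import Pool.Agent.R299.CDE.Main
import Pool.Agent.R299.CDE.Chamber

/-!
# The movable cone conjecture and the minimal models of varieties with `K ≡ 0`: reduction to factors

Let `Y` be a smooth projective variety with `K_Y ≡ 0`. By the theorem of Beauville and Bogomolov there
is a finite étale Galois covering `X → Y`, with a group `G`, where `X` is the product of an abelian
variety and of simply connected varieties `X i`, which are either irreducible holomorphic symplectic or
strict Calabi-Yau manifolds.

**Theorem.** If the movable cone conjecture holds for the factors of `X`, then it holds for `Y`. If in
addition the rational polyhedral cones in the effective movable cone of `Y` are decomposed into finitely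
many cones of minimal models (the decomposition of Shokurov, Kawamata and Birkar-Cascini-Hacon-McKernan;
it holds if the effective movable divisors of `Y` have good minimal models), then `Y` has only finitely
many minimal models up to isomorphism, and the **nef** cone conjecture holds for each of them.

It is known for abelian varieties (Prendergast-Smith; movable divisors are nef) and for irreducible
holomorphic symplectic manifolds (Markman, Amerik-Verbitsky). Hence

* the movable cone conjecture holds for **all** smooth projective `Y` with `K_Y ≡ 0`, of any
  dimension, whose universal covering has no strict Calabi-Yau factor of dimension at least three, for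
  instance for all Enriques manifolds and all the quotients of mixed products of abelian varieties and
  hyperkähler manifolds by groups which act freely and can permute the factors;
* in general it is reduced to the simply connected strict Calabi-Yau factors.

## The Lean statement

The theorem is about the cones of the varieties. In `Cones`, `int` are the integral classes in `N^1`,
`eff` are the effective classes, and the closed cone `nef` is here the **closure of the movable cone**,
so that `nefEff` is the effective movable cone, and `nefPlus` the convex hull of the rational
classes in the closed movable cone. The properties in `IsProjective` hold for the movable cone: its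
interior contains the ample classes and consists of big classes, and the intersection number with a
general complete intersection curve is positive on the pseudoeffective classes different from zero.
`Preserved` says that a group of linear maps, such as the image of `Bir(X)` in `GL(N^1(X))`, preserves
the integral classes and the cones. `N^1(X)` is the direct sum of the `N^1(X i)`, and a class is movable
(effective) if and only if its components are, since all the factors except one have
`h^1(O) = 0` (`prodCones`). The group `𝒜` is the image of `Bir(X)`; it contains the products of the
elements of the images `𝒢 i` of `Bir(X i)`. The hypotheses of `IsFiniteQuotient` are the well known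
relations between the cones of `X` and `Y = X / G` (norms of line bundles and of sections: the norm of
a general member of a movable linear system is movable). The last of them says that a subgroup
of finite index in the centralizer of `G` in `𝒜` consists of classes of birational automorphisms of `X`
which commute with `G`, and so come from birational automorphisms of `Y`: an element of the kernel of
`Bir(X) → GL(N^1(X))` fixes an ample class, so it is an automorphism, and the kernel is an extension of
a finite group by the connected component `A`, an abelian variety; since `H^1(G, A)` is finite, up to
conjugation by `A` there are only finitely many homomorphisms from `G` to the group generated by `G` and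
the kernel which agree with the given one modulo the kernel.

The first conclusion: there is a rational polyhedral fundamental domain for `Bir(Y)` on the effective
movable cone of `Y`, and this cone is the convex hull of the rational classes in the closed movable cone.

The second conclusion is for a set `𝒦` of closed cones, the nef cones of the minimal models `Y'` of `Y`
as subsets of the movable cone (`IsChamberSystem`): they are permuted by `ℬ` with finitely many orbits,
and for each of them the nef cone conjecture holds (`chamber` are the cones of the minimal model
`Y'`, `stab` is the group of the automorphisms of `Y'`), with `Nef^e(Y') = Nef^+(Y')`. For the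
boundary points of the nef cones this needs the Siegel property and a passage to the limit.

## The proof

Let `Π` be a rational polyhedral cone whose translates cover the interior of the movable cone of `X`.
By the *Siegel property* (Looijenga; here with a short proof from Dickson's lemma) `γ Π ∩ Π` meets the
interior only for finitely many automorphisms `γ` of the lattice and the cone. Let `x` be an interior
class fixed by `G`, and `γ x` in `Π`. Then the elements `γ g γ⁻¹`, for `g` in `G`, fix the point
`γ x` of `Π`, so they belong to a finite set. Hence `γ` belongs to one of finitely many cosets
`r (𝒜 ∩ C(G))`, and `x` is a translate, by an element which commutes with `G`, of a point of one of the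
finitely many cones `r⁻¹ Π`. The sum over `G` maps these cones to rational polyhedral cones in the
space fixed by `G`.
-/

set_option autoImplicit false

namespace Pool.Agent.Results.MP_e39d36_ag.MovableQuotients

open Pool.Agent.R299.CDE

/-- **The movable cone conjecture for finite quotients of products, and the minimal models.** If the
movable cone conjecture holds for the varieties `X i` (with the cones `N i` and the groups `𝒢 i`), then
it holds for the quotients `Y = (∏ X i) / G` by finite groups (with the cones `M` and the group `ℬ`), and
the effective movable cone of `Y` is the convex hull of the rational classes in the closed movable cone.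
The nef cones `κ ∈ 𝒦` of the minimal models of `Y` belong to finitely many orbits of `ℬ`, and the nef
cone conjecture holds for all these models. -/
theorem result {ι : Type} [Fintype ι] {W : ι → Type} [∀ i, NormedAddCommGroup (W i)]
    [∀ i, NormedSpace ℝ (W i)]
    -- the factors `X i`
    (N : ∀ i, Cones (W i)) (hN : ∀ i, (N i).IsProjective) (𝒢 : ∀ i, LinGrp (W i))
    (hconj : ∀ i, (N i).ConeConjecture (𝒢 i))
    -- the product `X` of the `X i`
    (𝒜 : LinGrp (∀ i, W i)) (h𝒜 : (prodCones N).Preserved 𝒜)
    (hprod : ∀ γ : ∀ i, W i ≃ₗ[ℝ] W i, (∀ i, γ i ∈ 𝒢 i) → LinearEquiv.piCongrRight γ ∈ 𝒜)
    -- the quotient `Y = X / G`
    {V : Type} [NormedAddCommGroup V] [NormedSpace ℝ V] (M : Cones V) (hM : M.IsProjective)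
    (ℬ : LinGrp V) (hℬ : M.Preserved ℬ) (G : LinGrp (∀ i, W i)) (q : V →ₗ[ℝ] ∀ i, W i)
    (hq : IsFiniteQuotient (prodCones N) 𝒜 G q M ℬ) :
    M.ConeConjecture ℬ ∧ M.nefEff = M.nefPlus ∧
      ∀ 𝒦 : Set (Set V), IsChamberSystem M ℬ 𝒦 →
        (∃ 𝒦₀ : Set (Set V), 𝒦₀ ⊆ 𝒦 ∧ 𝒦₀.Finite ∧ ∀ κ ∈ 𝒦, ∃ g ∈ ℬ, g '' κ ∈ 𝒦₀) ∧
          ∀ κ ∈ 𝒦, (M.chamber κ).ConeConjecture (stab ℬ κ) ∧
            (M.chamber κ).nefEff = (M.chamber κ).nefPlus := by
  obtain ⟨F, hF, hcov⟩ := prod_cover hN 𝒢 hconj 𝒜 hprod
  obtain ⟨h1, h2⟩ := quotient_main (prod_projective hN) h𝒜 F hF hcov hM hℬ hq
  exact ⟨h1, h2, fun 𝒦 h𝒦 => chamber_main hM hℬ h1 h2 h𝒦⟩

end Pool.Agent.Results.MP_e39d36_ag.MovableQuotients
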